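import Pool.Agent.H43.G.R_seed8.H300R2.BH.Defs
import Pool.Agent.H43.G.R_seed8.H442R2.EHI.Minor
import Pool.Agent.H43.G.R_seed8.H373R2.NB.Weyl

/-!
T2 of the BH project: many pairs `(k, k')` with `(k^j - k'^j) α` close to an integer force `α` to
be close to a rational with a small denominator.
-/

namespace Pool.Agent.H724R2.BH

open Finset Polynomial
open Pool.Agent.H469R2.NK (e)
open Pool.Agent.H442R2.EHI
open Pool.Agent.H300R2.BH
open Pool.Agent.Helper602.MK (ee)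
open Pool.Agent.Helper602.MK.N_J5b (ee_eq ee_add ee_zero ee_conj norm_ee ee_int ee_nat_mul)
open Pool.Agent.H373R2.NB (IW_all Ph Ph_poly IW)

lemma ee_e (x : ℝ) : ee x = e x := ee_eq x

lemma sum_conj' (T : Finset ℕ) (f : ℕ → ℝ) (t : ℝ) :
    ‖∑ k ∈ T, ee ((-t) * f k)‖ = ‖∑ k ∈ T, ee (t * f k)‖ := by
  rw [← Complex.norm_conj (∑ k ∈ T, ee (t * f k)), map_sum]
  congr 1
  apply sum_congr rfl
  intro h _
  rw [ee_conj]; congr 1; ring

lemma weight' (H : ℕ) (t Δ : ℝ) (ht : nint t ≤ Δ) (hH : (H : ℝ) * Δ ≤ 1 / 2) :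
    (2 / Real.pi) * H ≤ ‖∑ h ∈ range H, ee ((h : ℝ) * t)‖ := by
  have h1 : ∑ h ∈ range H, ee ((h : ℝ) * t) = ∑ h ∈ range H, ee ((t - round t) * (h : ℝ)) := by
    apply sum_congr rfl
    intro h _
    have : (h : ℝ) * t = (t - round t) * (h : ℝ) + (((h : ℤ) * round t : ℤ) : ℝ) := by
      push_cast; ring
    rw [this, ee_add, ee_int, mul_one]
  rw [h1]
  have hsΔ : |t - round t| ≤ Δ := ht
  set s := t - round t with hs
  have hH' : (H : ℝ) * |s| ≤ 1 / 2 :=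
    (mul_le_mul_of_nonneg_left hsΔ (Nat.cast_nonneg _)).trans hH
  have key : ∀ r : ℝ, 0 < r → (H : ℝ) * r ≤ 1 / 2 →
      (2 / Real.pi) * H ≤ ‖∑ h ∈ range H, ee (r * (h : ℝ))‖ := by
    intro r hr hr2
    have h2 := MinorAux.weight H r hr hr2
    have h3 : ∑ j ∈ range H, e ((j : ℝ) * r) = ∑ h ∈ range H, ee (r * (h : ℝ)) := by
      apply sum_congr rfl
      intro h _
      rw [ee_e, mul_comm]
    rwa [h3] at h2
  rcases lt_trichotomy s 0 with h0 | h0 | h0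
  · rw [abs_of_neg h0] at hH'
    have h2 := key (-s) (by linarith) hH'
    rwa [sum_conj'] at h2
  · rw [h0]
    simp only [zero_mul, ee_zero, sum_const, card_range, nsmul_eq_mul, mul_one,
      Complex.norm_natCast]
    have hpi := Real.pi_gt_three
    have h2 : 2 / Real.pi ≤ 1 := by rw [div_le_one (by linarith)]; linarith
    have h3 : (0 : ℝ) ≤ H := Nat.cast_nonneg _
    nlinarith
  · rw [abs_of_pos h0] at hH'
    exact key s h0 hH'

lemma expand (T : Finset ℕ) (f : ℕ → ℝ) (H : ℕ) :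
    ∑ kk ∈ T ×ˢ T, ‖∑ h ∈ range H, ee ((h : ℝ) * (f kk.1 - f kk.2))‖ ^ 2 =
    ∑ hh ∈ range H ×ˢ range H, ‖∑ k ∈ T, ee (((hh.1 : ℝ) - hh.2) * f k)‖ ^ 2 := by
  have sq : ∀ (z : ℂ), ((‖z‖ ^ 2 : ℝ) : ℂ) = z * (starRingEnd ℂ) z := by
    intro z; rw [Complex.mul_conj, Complex.normSq_eq_norm_sq]
  have h : ((∑ kk ∈ T ×ˢ T, ‖∑ h ∈ range H, ee ((h : ℝ) * (f kk.1 - f kk.2))‖ ^ 2 : ℝ) : ℂ) =
    ((∑ hh ∈ range H ×ˢ range H, ‖∑ k ∈ T, ee (((hh.1 : ℝ) - hh.2) * f k)‖ ^ 2 : ℝ) : ℂ) := by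
    rw [Complex.ofReal_sum, Complex.ofReal_sum]
    have l : ∀ kk ∈ T ×ˢ T,
        ((‖∑ h ∈ range H, ee ((h : ℝ) * (f kk.1 - f kk.2))‖ ^ 2 : ℝ) : ℂ) =
        ∑ hh ∈ range H ×ˢ range H, ee (((hh.1 : ℝ) - hh.2) * (f kk.1 - f kk.2)) := by
      intro kk _
      rw [sq, map_sum, sum_mul_sum, ← sum_product']
      apply sum_congr rfl
      intro hh _
      rw [ee_conj, ← ee_add]; congr 1; ring
    have r : ∀ hh ∈ range H ×ˢ range H,
        ((‖∑ k ∈ T, ee (((hh.1 : ℝ) - hh.2) * f k)‖ ^ 2 : ℝ) : ℂ) =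
        ∑ kk ∈ T ×ˢ T, ee (((hh.1 : ℝ) - hh.2) * (f kk.1 - f kk.2)) := by
      intro hh _
      rw [sq, map_sum, sum_mul_sum, ← sum_product']
      apply sum_congr rfl
      intro kk _
      rw [ee_conj, ← ee_add]; congr 1; ring
    rw [sum_congr rfl l, sum_congr rfl r, sum_comm]
  exact_mod_cast h

/-- a large exponential sum from many pairs -/
lemma exists_large (T : Finset ℕ) (f : ℕ → ℝ) (H : ℕ) (hH : 1 ≤ H) (K P Δ : ℝ)
    (hT : (#T : ℝ) ≤ K) (hHΔ : (H : ℝ) * Δ ≤ 1 / 2) (hP : 0 < P) (hPH : 10 * P ≤ H)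
    (hcard : K ^ 2 / P < (((T ×ˢ T).filter (fun kk : ℕ × ℕ => nint (f kk.1 - f kk.2) ≤ Δ)).card : ℝ)) :
    ∃ g : ℕ, 1 ≤ g ∧ g < H ∧ K ^ 2 / (5 * P) ≤ ‖∑ k ∈ T, ee ((g : ℝ) * f k)‖ ^ 2 := by
  by_contra hcon
  push Not at hcon
  have hpi := Real.pi_pos
  have hpi2 : Real.pi ^ 2 < 10 := by
    have := Real.pi_lt_d2
    nlinarith
  have hH0 : (0 : ℝ) < H := by exact_mod_cast hH
  have hK0 : 0 ≤ K := (Nat.cast_nonneg _).trans hT
  set n0 : ℝ := (((T ×ˢ T).filter (fun kk : ℕ × ℕ => nint (f kk.1 - f kk.2) ≤ Δ)).card : ℝ) with hn0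
  have h1 : n0 * ((2 / Real.pi) * H) ^ 2 ≤
      ∑ kk ∈ T ×ˢ T, ‖∑ h ∈ range H, ee ((h : ℝ) * (f kk.1 - f kk.2))‖ ^ 2 := by
    calc n0 * ((2 / Real.pi) * H) ^ 2 =
        ∑ kk ∈ (T ×ˢ T).filter (fun kk : ℕ × ℕ => nint (f kk.1 - f kk.2) ≤ Δ),
          ((2 / Real.pi) * H) ^ 2 := by rw [sum_const, nsmul_eq_mul]
      _ ≤ ∑ kk ∈ (T ×ˢ T).filter (fun kk : ℕ × ℕ => nint (f kk.1 - f kk.2) ≤ Δ),
          ‖∑ h ∈ range H, ee ((h : ℝ) * (f kk.1 - f kk.2))‖ ^ 2 := by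
          apply sum_le_sum
          intro kk hkk
          exact pow_le_pow_left₀ (by positivity) (weight' H _ Δ (mem_filter.1 hkk).2 hHΔ) 2
      _ ≤ _ := sum_le_sum_of_subset_of_nonneg (filter_subset _ _) (fun _ _ _ => by positivity)
  rw [expand] at h1
  have htriv : ∀ t : ℝ, ‖∑ k ∈ T, ee (t * f k)‖ ≤ K := by
    intro t
    refine le_trans (norm_sum_le _ _) ?_
    simp only [norm_ee, sum_const, nsmul_eq_mul, mul_one]
    exact hT
  have h2 : ∀ hh ∈ range H ×ˢ range H, ‖∑ k ∈ T, ee (((hh.1 : ℝ) - hh.2) * f k)‖ ^ 2 ≤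
      (if hh.1 = hh.2 then K ^ 2 else 0) + K ^ 2 / (5 * P) := by
    intro hh hmem
    rw [mem_product, mem_range, mem_range] at hmem
    have hpos : 0 ≤ K ^ 2 / (5 * P) := by positivity
    rcases lt_trichotomy hh.1 hh.2 with h3 | h3 | h3
    · rw [if_neg (by omega), zero_add]
      have h4 : ((hh.1 : ℝ) - hh.2) = -((hh.2 - hh.1 : ℕ) : ℝ) := by
        rw [Nat.cast_sub h3.le]; ring
      rw [h4, sum_conj']
      exact (hcon (hh.2 - hh.1) (by omega) (by omega)).le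
    · rw [if_pos h3]
      have := pow_le_pow_left₀ (norm_nonneg _) (htriv ((hh.1 : ℝ) - hh.2)) 2
      linarith
    · rw [if_neg (by omega), zero_add]
      have h4 : ((hh.1 : ℝ) - hh.2) = ((hh.1 - hh.2 : ℕ) : ℝ) := by
        rw [Nat.cast_sub h3.le]
      rw [h4]
      exact (hcon (hh.1 - hh.2) (by omega) (by omega)).le
  have h3 : ∑ hh ∈ range H ×ˢ range H, ‖∑ k ∈ T, ee (((hh.1 : ℝ) - hh.2) * f k)‖ ^ 2 ≤
      H * K ^ 2 + H ^ 2 * (K ^ 2 / (5 * P)) := by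
    refine (sum_le_sum h2).trans (le_of_eq ?_)
    rw [sum_add_distrib, sum_const, card_product, card_range, nsmul_eq_mul, sum_product]
    congr 1
    · have : ∀ x ∈ range H, ∑ y ∈ range H, (if x = y then K ^ 2 else 0) = K ^ 2 := by
        intro x hx
        rw [sum_ite_eq, if_pos hx]
      rw [sum_congr rfl this, sum_const, card_range, nsmul_eq_mul]
    · push_cast; ring
  have h4 : n0 * ((2 / Real.pi) * H) ^ 2 ≤ H * K ^ 2 + H ^ 2 * (K ^ 2 / (5 * P)) := h1.trans h3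
  have h5 : H * K ^ 2 ≤ H ^ 2 * (K ^ 2 / (10 * P)) := by
    rw [mul_div_assoc', le_div_iff₀ (by positivity)]
    have : H * K ^ 2 * (10 * P) ≤ H * K ^ 2 * H := mul_le_mul_of_nonneg_left hPH (by positivity)
    linarith
  have h6 : n0 * ((2 / Real.pi) * H) ^ 2 ≤ H ^ 2 * (3 / 10 * (K ^ 2 / P)) := by
    have e1 : H ^ 2 * (K ^ 2 / (10 * P)) + H ^ 2 * (K ^ 2 / (5 * P)) =
        H ^ 2 * (3 / 10 * (K ^ 2 / P)) := by
      field_simp; ring
    linarith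
  have h7 : n0 * (4 / Real.pi ^ 2) ≤ 3 / 10 * (K ^ 2 / P) := by
    have e1 : n0 * ((2 / Real.pi) * H) ^ 2 = (H : ℝ) ^ 2 * (n0 * (4 / Real.pi ^ 2)) := by
      field_simp; ring
    rw [e1] at h6
    exact le_of_mul_le_mul_left h6 (by positivity)
  have h8 : (2 : ℝ) / 5 ≤ 4 / Real.pi ^ 2 := by
    rw [div_le_div_iff₀ (by norm_num) (by positivity)]
    linarith
  have h9 : 0 ≤ K ^ 2 / P := by positivity
  have h10 : 0 ≤ n0 := by rw [hn0]; positivity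
  nlinarith

/-- T2 of the BH project. -/
theorem count_inv (j : ℕ) (hj : 1 ≤ j) (U E2 : ℕ) : ∃ (E : ℕ) (L0 : ℝ), ∀ L : ℝ, L0 ≤ L →
    ∀ K K1 : ℕ, 1 ≤ K → K1 ≤ K → (K : ℝ) ≤ K1 * L ^ E2 → ∀ Δ α : ℝ, 0 ≤ Δ → Δ * L ^ E ≤ 1 →
    (K : ℝ) ^ 2 / L ^ U < (((Ioc K1 K ×ˢ Ioc K1 K).filter (fun kk : ℕ × ℕ =>
      nint (((((kk.1 ^ j : ℕ) : ℤ) - ((kk.2 ^ j : ℕ) : ℤ) : ℤ) : ℝ) * α) ≤ Δ)).card : ℝ) →
    ∃ q : ℕ, 1 ≤ q ∧ (q : ℝ) ≤ L ^ E ∧ ∃ b : ℤ, |α - (b : ℝ) / (q : ℝ)| ≤ L ^ E / (K : ℝ) ^ j := by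
  obtain ⟨c, m, hc, hI⟩ := IW_all j hj
  refine ⟨(U + 1) * m + (U + 1) + j * E2 + 1, (c : ℝ) * 4 ^ m * 2 * j.factorial + 10, ?_⟩
  intro L hL K K1 hK hK1 hKK Δ α hΔ0 hΔ hcard
  set E : ℕ := (U + 1) * m + (U + 1) + j * E2 + 1 with hE
  have hfac : (1 : ℝ) ≤ j.factorial := by exact_mod_cast Nat.factorial_pos j
  have hc1 : (1 : ℝ) ≤ c := by exact_mod_cast hc
  have h4m : (1 : ℝ) ≤ 4 ^ m := one_le_pow₀ (by norm_num)
  have hC : (0 : ℝ) ≤ (c : ℝ) * 4 ^ m * 2 * j.factorial := by positivity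
  have hL10 : (10 : ℝ) ≤ L := by linarith
  have hL1 : (1 : ℝ) ≤ L := by linarith
  have hL0 : (0 : ℝ) < L := by linarith
  have hLC : (c : ℝ) * 4 ^ m * 2 * j.factorial ≤ L := by linarith
  set H : ℕ := ⌊L ^ (U + 1)⌋₊ + 1 with hH
  have hHlow : L ^ (U + 1) ≤ H := by
    rw [hH]; push_cast; exact (Nat.lt_floor_add_one _).le
  have hHup : (H : ℝ) ≤ 2 * L ^ (U + 1) := by
    rw [hH]; push_cast
    have h1 := Nat.floor_le (show 0 ≤ L ^ (U + 1) by positivity)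
    have h2 : 1 ≤ L ^ (U + 1) := one_le_pow₀ hL1
    linarith
  have hHΔ : (H : ℝ) * Δ ≤ 1 / 2 := by
    have h1 : L ^ (U + 1) * 10 ≤ L ^ E := by
      calc L ^ (U + 1) * 10 ≤ L ^ (U + 1) * L := mul_le_mul_of_nonneg_left hL10 (by positivity)
        _ = L ^ (U + 2) := by ring
        _ ≤ L ^ E := pow_le_pow_right₀ hL1 (by rw [hE]; nlinarith [Nat.zero_le ((U + 1) * m), Nat.zero_le (j * E2)])
    have h2 : (H : ℝ) * Δ ≤ 2 * L ^ (U + 1) * Δ := mul_le_mul_of_nonneg_right hHup hΔ0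
    have h3 : L ^ (U + 1) * 10 * Δ ≤ L ^ E * Δ := mul_le_mul_of_nonneg_right h1 hΔ0
    nlinarith
  obtain ⟨g, hg1, hgH, hg⟩ := exists_large (Ioc K1 K) (fun k => ((k ^ j : ℕ) : ℝ) * α) H
    (by omega) K (L ^ U) Δ (by
      rw [Nat.card_Ioc]; exact_mod_cast Nat.sub_le K K1) hHΔ (by positivity) (by
      refine le_trans ?_ hHlow
      rw [pow_succ]
      nlinarith [show 0 < L ^ U by positivity]) (by
      refine lt_of_lt_of_le hcard (le_of_eq ?_)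
      congr 2
      apply filter_congr
      intro kk _
      have : (((((kk.1 ^ j : ℕ) : ℤ) - ((kk.2 ^ j : ℕ) : ℤ) : ℤ) : ℝ) * α) =
        ((kk.1 ^ j : ℕ) : ℝ) * α - ((kk.2 ^ j : ℕ) : ℝ) * α := by push_cast; ring
      rw [this])
  have hK0 : (0 : ℝ) < K := by exact_mod_cast hK
  have hg0 : (0 : ℝ) < g := by exact_mod_cast hg1
  set S : ℕ → ℂ := fun N => ∑ k ∈ range N, ee ((g : ℝ) * (((k ^ j : ℕ) : ℝ) * α)) with hS
  have hS1 : ∑ k ∈ Ioc K1 K, ee ((g : ℝ) * (((k ^ j : ℕ) : ℝ) * α)) = S (K + 1) - S (K1 + 1) := by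
    rw [hS]
    simp only
    rw [← sum_Ico_eq_sub _ (by omega)]
    apply sum_congr _ (fun _ _ => rfl)
    ext k; simp only [mem_Ioc, mem_Ico]; omega
  have hbig : (K : ℝ) ≤ L ^ (U + 1) * ‖S (K + 1) - S (K1 + 1)‖ := by
    rw [← hS1]
    apply le_of_sq_le_sq _ (by positivity)
    rw [div_le_iff₀ (by positivity)] at hg
    refine hg.trans ?_
    rw [mul_pow, ← pow_mul, mul_comm]
    apply mul_le_mul_of_nonneg_right _ (by positivity)
    calc 5 * L ^ U ≤ L * L ^ U := mul_le_mul_of_nonneg_right (by linarith) (by positivity)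
      _ = L ^ (U + 1) := by ring
      _ ≤ L ^ ((U + 1) * 2) := pow_le_pow_right₀ hL1 (by omega)
  obtain ⟨N, hN1, hN2, hN3⟩ : ∃ N : ℕ, K1 + 1 ≤ N ∧ N ≤ K + 1 ∧
      (K : ℝ) ≤ 2 * L ^ (U + 1) * ‖S N‖ := by
    by_contra hcon
    push Not at hcon
    have h1 := hcon (K + 1) (by omega) le_rfl
    have h2 := hcon (K1 + 1) le_rfl (by omega)
    have h3 : ‖S (K + 1) - S (K1 + 1)‖ ≤ ‖S (K + 1)‖ + ‖S (K1 + 1)‖ := norm_sub_le _ _
    have h4 : L ^ (U + 1) * ‖S (K + 1) - S (K1 + 1)‖ ≤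
        L ^ (U + 1) * (‖S (K + 1)‖ + ‖S (K1 + 1)‖) :=
      mul_le_mul_of_nonneg_left h3 (by positivity)
    linarith
  set u : ℝ := 4 * L ^ (U + 1) with hu
  have hu1 : 1 ≤ u := by
    have : 1 ≤ L ^ (U + 1) := one_le_pow₀ hL1
    linarith
  have hNu : (N : ℝ) ≤ u * ‖S N‖ := by
    have h1 : (N : ℝ) ≤ K + 1 := by exact_mod_cast hN2
    have h2 : (1 : ℝ) ≤ K := by exact_mod_cast hK
    have h3 : (N : ℝ) ≤ 2 * K := by linarith
    rw [hu]; linarith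
  have hPh := Ph_poly j ((X : ℤ[X]) ^ j) (natDegree_X_pow j).le ((g : ℝ) * α)
  have hφ : (fun n : ℕ => (g : ℝ) * α * ((((X : ℤ[X]) ^ j).eval (n : ℤ) : ℤ) : ℝ)) =
      fun n : ℕ => (g : ℝ) * (((n ^ j : ℕ) : ℝ) * α) := by
    funext n
    rw [eval_pow, eval_X]
    push_cast; ring
  rw [hφ, coeff_X_pow_self] at hPh
  obtain ⟨q, hq1, hq2, a, ha⟩ := hI N u _ _ (by omega) hu1 hPh hNu
  have hq0 : (0 : ℝ) < q := by exact_mod_cast hq1
  have hfac0 : (0 : ℝ) < j.factorial := by linarith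
  have hQ0 : (0 : ℝ) < (q : ℝ) * g * j.factorial := by positivity
  have hu_pow : u ^ m = 4 ^ m * L ^ ((U + 1) * m) := by
    rw [hu, mul_pow, ← pow_mul]
  refine ⟨q * g * j.factorial, Nat.mul_pos (Nat.mul_pos hq1 hg1) (Nat.factorial_pos j), ?_, a, ?_⟩
  · push_cast
    have hgL : (g : ℝ) ≤ 2 * L ^ (U + 1) := by
      have : (g : ℝ) ≤ H := by exact_mod_cast hgH.le
      linarith
    calc (q : ℝ) * g * j.factorial ≤ (c * u ^ m) * (2 * L ^ (U + 1)) * j.factorial := by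
          apply mul_le_mul_of_nonneg_right _ (by positivity)
          exact mul_le_mul hq2 hgL (by positivity) (by positivity)
      _ = ((c : ℝ) * 4 ^ m * 2 * j.factorial) * (L ^ ((U + 1) * m) * L ^ (U + 1)) := by
          rw [hu_pow]; ring
      _ ≤ L * (L ^ ((U + 1) * m) * L ^ (U + 1)) :=
          mul_le_mul_of_nonneg_right hLC (by positivity)
      _ = L ^ ((U + 1) * m + (U + 1) + 1) := by
          rw [pow_succ, pow_add]; ring
      _ ≤ L ^ E := pow_le_pow_right₀ hL1 (by rw [hE]; nlinarith [Nat.zero_le (j * E2)])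
  · push_cast
    have h1 : |α - (a : ℝ) / ((q : ℝ) * g * j.factorial)| =
        |(q : ℝ) * ((g : ℝ) * α * ((j.factorial : ℝ) * ((1 : ℤ) : ℝ))) - a| /
          ((q : ℝ) * g * j.factorial) := by
      rw [eq_div_iff hQ0.ne', ← abs_of_pos hQ0, ← abs_mul, abs_of_pos hQ0]
      congr 1
      push_cast
      field_simp
    rw [h1]
    have hNj : (K : ℝ) ^ j ≤ (N : ℝ) ^ j * L ^ (j * E2) := by
      have h2 : (K : ℝ) ≤ N * L ^ E2 := by
        refine hKK.trans (mul_le_mul_of_nonneg_right ?_ (by positivity))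
        exact_mod_cast (by omega : K1 ≤ N)
      calc (K : ℝ) ^ j ≤ (N * L ^ E2) ^ j := pow_le_pow_left₀ hK0.le h2 j
        _ = _ := by rw [mul_pow, ← pow_mul, mul_comm E2 j]
    have hN0 : (0 : ℝ) < N := by exact_mod_cast (by omega : 0 < N)
    have hQ1 : (1 : ℝ) ≤ (q : ℝ) * g * j.factorial := by
      exact_mod_cast Nat.mul_pos (Nat.mul_pos hq1 hg1) (Nat.factorial_pos j)
    calc |(q : ℝ) * ((g : ℝ) * α * ((j.factorial : ℝ) * ((1 : ℤ) : ℝ))) - a| /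
          ((q : ℝ) * g * j.factorial) ≤
          |(q : ℝ) * ((g : ℝ) * α * ((j.factorial : ℝ) * ((1 : ℤ) : ℝ))) - a| :=
          div_le_self (abs_nonneg _) hQ1
      _ ≤ c * u ^ m / (N : ℝ) ^ j := ha
      _ ≤ L ^ E / (K : ℝ) ^ j := by
          rw [div_le_div_iff₀ (by positivity) (by positivity)]
          calc c * u ^ m * (K : ℝ) ^ j ≤ c * u ^ m * ((N : ℝ) ^ j * L ^ (j * E2)) :=
                mul_le_mul_of_nonneg_left hNj (by positivity)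
            _ = (c * 4 ^ m) * (L ^ ((U + 1) * m) * L ^ (j * E2)) * (N : ℝ) ^ j := by
                rw [hu_pow]; ring
            _ ≤ L * (L ^ ((U + 1) * m) * L ^ (j * E2)) * (N : ℝ) ^ j := by
                apply mul_le_mul_of_nonneg_right _ (by positivity)
                apply mul_le_mul_of_nonneg_right _ (by positivity)
                refine le_trans ?_ hLC
                have h5 : (1 : ℝ) ≤ 2 * j.factorial := by linarith
                calc (c : ℝ) * 4 ^ m = (c : ℝ) * 4 ^ m * 1 := by ring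
                  _ ≤ (c : ℝ) * 4 ^ m * (2 * j.factorial) :=
                    mul_le_mul_of_nonneg_left h5 (by positivity)
                  _ = _ := by ring
            _ = L ^ ((U + 1) * m + j * E2 + 1) * (N : ℝ) ^ j := by
                rw [pow_succ, pow_add]; ring
            _ ≤ L ^ E * (N : ℝ) ^ j := by
                apply mul_le_mul_of_nonneg_right _ (by positivity)
                exact pow_le_pow_right₀ hL1 (by rw [hE]; omega)

end Pool.Agent.H724R2.BH
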